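import Mathlib

set_option autoImplicit false
set_option maxRecDepth 100000

namespace Pool.Agent.Results.MP_c1e3ac_co.Counter

section
variable {B W : Type} [Group W] {M : CoxeterMatrix B} (cs : CoxeterSystem M W)

/-- `l` is a factorization of `w` into reflections -/
def IsFact (w : W) (l : List W) : Prop := (∀ t ∈ l, cs.IsReflection t) ∧ l.prod = w

/-- the sum of the depths `(1 + length t) / 2` of the factors -/
noncomputable def cost (l : List W) : ℕ := (l.map fun t => (1 + cs.length t) / 2).sum

/-- the depth of an element -/
noncomputable def depth (w : W) : ℕ := sInf {n | ∃ l, IsFact cs w l ∧ cost cs l = n}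
end

def M : CoxeterMatrix (Fin 3) where
  M := Matrix.of fun i j => if i = j then 1 else 3

noncomputable def cs : CoxeterSystem M M.Group := M.toCoxeterSystem

abbrev P := ℤ × ℤ × ℤ

def act (i : Fin 3) (x : P) : P :=
  if i = 0 then (x.2.2 - 3, x.2.1, x.1 + 3) else if i = 1 then (x.2.1, x.1, x.2.2)
  else (x.1, x.2.2, x.2.1)

def f (i : Fin 3) : Function.End P := act i

lemma lf : M.IsLiftable f := by
  intro i j
  funext x
  obtain ⟨a, b, c⟩ := x
  fin_cases i <;> fin_cases j <;>
    simp [M, f, act, pow_succ, Function.End.mul_def, Function.End.one_def]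

noncomputable def φ : M.Group →* Function.End P := cs.lift ⟨f, lf⟩

def ev (u : List (Fin 3)) : P := u.foldr act (1, 2, 3)

lemma φ_word (u : List (Fin 3)) : (φ (cs.wordProd u) : P → P) (1, 2, 3) = ev u := by
  induction u with
  | nil => simp [ev, Function.End.one_def]
  | cons i u ih =>
    rw [cs.wordProd_cons, map_mul, φ, cs.lift_apply_simple]
    exact congrArg (act i) ih

def w0 : List (Fin 3) := [0, 1, 2, 0, 1, 2, 0]

def ok : ℕ → List (Fin 3) → Bool
  | 0, u => decide (ev u = ev w0 → u = w0)
  | n + 1, u => decide (ev u = ev w0 → u = w0) && (List.finRange 3).all fun i => ok n (i :: u)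

lemma ok7 : ok 7 [] = true := by decide +kernel

lemma ok_sound : ∀ (n : ℕ) (u v : List (Fin 3)), ok n u = true → v.length ≤ n →
    ev (v ++ u) = ev w0 → v ++ u = w0 := by
  intro n
  induction n with
  | zero =>
    intro u v h hv
    have : v = [] := List.eq_nil_of_length_eq_zero (by omega)
    subst this
    exact of_decide_eq_true h
  | succ n ih =>
    intro u v h hv
    simp only [ok, Bool.and_eq_true, decide_eq_true_eq, List.all_eq_true] at h
    rcases List.eq_nil_or_concat v with rfl | ⟨v, i, rfl⟩
    · exact h.1
    · have := ih (i :: u) v (h.2 i (List.mem_finRange i)) (by simp at hv; omega)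
      simpa using this

lemma uniq (u : List (Fin 3)) (hu : u.length ≤ 7) (h : cs.wordProd u = cs.wordProd w0) :
    u = w0 := by
  have := ok_sound 7 [] u ok7 hu
  simp only [List.append_nil] at this
  exact this (by rw [← φ_word, h, φ_word])

lemma blocks : ∀ i ≤ 7, ∀ j ≤ 7, ev ((w0.drop i).take j ++ (w0.drop i).take j) = ev [] →
    ((w0.drop i).take j).length ≤ 1 := by decide +kernel

lemma braid (i j : Fin 3) (h : i ≠ j) (x : M.Group) :
    cs.simple i * (cs.simple j * (cs.simple i * x)) =
      cs.simple j * (cs.simple i * (cs.simple j * x)) := by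
  have h1 := cs.simple_mul_simple_pow i j
  have h2 : M i j = 3 := by simp [M, h]
  rw [h2] at h1
  have h3 : cs.simple j * (cs.simple i * (cs.simple j * x)) =
      (cs.simple i * cs.simple j) ^ 3 * (cs.simple j * (cs.simple i * (cs.simple j * x))) := by
    rw [h1, one_mul]
  rw [h3]
  simp only [pow_succ, pow_zero, one_mul, mul_assoc, cs.simple_mul_simple_cancel_left]

lemma six : depth cs (cs.wordProd w0) ≤ 6 := by
  have hf : IsFact cs (cs.wordProd w0)
      [cs.wordProd [0, 1, 0], cs.wordProd [2], cs.wordProd [0, 1, 2, 1, 0]] := by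
    constructor
    · intro t ht
      simp only [List.mem_cons, List.not_mem_nil, or_false] at ht
      rcases ht with rfl | rfl | rfl
      · exact ⟨cs.simple 0, 1, by simp [cs.wordProd_cons, mul_assoc]⟩
      · exact ⟨1, 2, by simp⟩
      · exact ⟨cs.simple 0 * cs.simple 1, 2, by simp [cs.wordProd_cons, mul_assoc]⟩
    · simp only [w0, List.prod_cons, List.prod_nil, cs.wordProd_cons, cs.wordProd_nil, mul_assoc,
        one_mul]
      rw [braid 0 2 (by decide), braid 1 2 (by decide) (cs.simple 0 * _),
        cs.simple_mul_simple_cancel_left, mul_one]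
  refine le_trans (b := cost cs _) (Nat.sInf_le ⟨_, hf, rfl⟩) ?_
  have a := cs.length_wordProd_le [0, 1, 0]
  have b := cs.length_wordProd_le [2]
  have c := cs.length_wordProd_le [0, 1, 2, 1, 0]
  simp only [cost, List.map_cons, List.map_nil, List.sum_cons, List.sum_nil, List.length_cons,
    List.length_nil] at *
  omega

theorem result : ∃ (B W : Type) (_ : Group W) (N : CoxeterMatrix B) (c : CoxeterSystem N W)
    (w : W), ∀ l, IsFact c w l → cost c l = depth c w →
      c.length w < (l.map c.length).sum := by
  refine ⟨Fin 3, M.Group, inferInstance, M, cs, cs.wordProd w0, fun l hl hc => ?_⟩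
  by_contra hle
  have h7 : cs.length (cs.wordProd w0) ≤ 7 := cs.length_wordProd_le w0
  choose u hu1 hu2 using cs.exists_isReduced
  have hlen : ∀ t, (u t).length = cs.length t := fun t => by
    rw [← (hu1 t).eq, ← hu2 t]
  have fl : ∀ l : List M.Group, cs.wordProd (l.flatMap u) = l.prod ∧
      (l.flatMap u).length = (l.map cs.length).sum := by
    intro l
    induction l with
    | nil => simp
    | cons t l ih =>
      simp only [List.flatMap_cons, cs.wordProd_append, List.prod_cons, List.length_append,
        List.map_cons, List.sum_cons, ih.1, ih.2, hlen, ← hu2 t, and_self]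
  have e : l.flatMap u = w0 := uniq _ (by rw [(fl l).2]; omega) (by rw [(fl l).1, hl.2])
  have one : ∀ t ∈ l, cs.length t = 1 := by
    intro t ht
    obtain ⟨a, b, rfl⟩ := List.append_of_mem ht
    have e7 := congrArg List.length e
    simp only [List.flatMap_append, List.flatMap_cons, List.length_append] at e e7
    have e8 : w0.length = 7 := rfl
    have hv : (w0.drop (a.flatMap u).length).take (u t).length = u t := by
      rw [← e]; simp
    have := blocks (a.flatMap u).length (by omega) (u t).length (by omega) (by
      rw [hv, ← φ_word, ← φ_word, cs.wordProd_append, ← hu2 t, (hl.1 t ht).mul_self,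
        cs.wordProd_nil])
    rw [hv, hlen] at this
    obtain ⟨k, hk⟩ := (hl.1 t ht).odd_length
    omega
  have c7 : cost cs l = (l.map cs.length).sum := by
    unfold cost
    rw [List.map_congr_left fun t ht => (by rw [one t ht] : (1 + cs.length t) / 2 = cs.length t)]
  have := (fl l).2
  rw [e] at this
  have e8 : w0.length = 7 := rfl
  have := six
  omega

end Pool.Agent.Results.MP_c1e3ac_co.Counter
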